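import Pool.Agent.X234.BSE.Main

/-! The part E2 of MP_4f027a_co: the order of the crossings is determined by the value. -/

namespace Pool.Agent.X234.BSE

open Pool.Agent.X189.BS

variable {n : ℕ}

lemma ix_lt_iff {α : Type*} [DecidableEq α] (L : List α) (e : α) :
    ix L e < L.length ↔ e ∈ L := List.idxOf_lt_length_iff

lemma ix_mem {α : Type*} [DecidableEq α] {L : List α} {e f : α} (h : ix L e < ix L f) :
    e ∈ L := by
  rw [← ix_lt_iff]
  exact lt_of_lt_of_le h List.idxOf_le_length

lemma ix_ne {α : Type*} [DecidableEq α] {L : List α} {e f : α} (he : e ∈ L) (h : e ≠ f) :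
    ix L e ≠ ix L f := by
  intro hh
  by_cases hf : f ∈ L
  · exact h ((List.idxOf_inj he).1 hh)
  · have h1 := (ix_lt_iff L e).2 he
    have h2 := (ix_lt_iff L f).not.2 hf
    omega

lemma ix_split {α : Type*} [DecidableEq α] {L A B : List α} {e f : α} (hn : L.Nodup)
    (h : L = A ++ e :: B) (hf : f ∈ B) : ix L e < ix L f := by
  obtain ⟨B1, B2, hB⟩ := List.append_of_mem hf
  have h1 : L = (A ++ e :: B1) ++ f :: B2 := by rw [h, hB]; simp
  exact (idx_pos hn h1 e).2 (by simp)

structure Hyp (a c : Fin (n + 1)) (L L' : List (Fin (n + 1) × Fin (n + 1))) : Prop where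
  v : Val a c L
  v' : Val a c L'
  m : ∀ e, e ∈ L ↔ e ∈ L'
  f1 : Eqv (L.filter fun e => e.1 ≠ a) (L'.filter fun e => e.1 ≠ a)
  f2 : Eqv (L.filter fun e => e.2 ≠ c) (L'.filter fun e => e.2 ≠ c)

variable {a c : Fin (n + 1)} {L L' : List (Fin (n + 1) × Fin (n + 1))}

lemma Hyp.symm (H : Hyp a c L L') : Hyp a c L' L :=
  ⟨H.v', H.v, fun e => (H.m e).symm, eqv_symm H.f1, eqv_symm H.f2⟩

lemma Hyp.ord1 (H : Hyp a c L L') {e f : Fin (n + 1) × Fin (n + 1)} (hs : Sh e f)
    (he : e.1 ≠ a) (hf : f.1 ≠ a) (hfL : f ∈ L) (h : ix L e < ix L f) : ix L' e < ix L' f :=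
  ord_of_filter (nodup_of_val H.v) (nodup_of_val H.v') H.f1 hs (by simpa using he)
    (by simpa using hf) hfL h

lemma Hyp.ord2 (H : Hyp a c L L') {e f : Fin (n + 1) × Fin (n + 1)} (hs : Sh e f)
    (he : e.2 ≠ c) (hf : f.2 ≠ c) (hfL : f ∈ L) (h : ix L e < ix L f) : ix L' e < ix L' f :=
  ord_of_filter (nodup_of_val H.v) (nodup_of_val H.v') H.f2 hs (by simpa using he)
    (by simpa using hf) hfL h

lemma at_ac (hv : Val a c L) (h : (a, c) ∈ L) {z : Fin (n + 1)} (h1 : a < z) (h2 : z < c) :
    (ix L (a, z) < ix L (a, c) ↔ ¬ ix L (z, c) < ix L (a, c)) :=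
  (val_idx hv h).2.2.2.2.2 z h1 h2

theorem same (hac : a < c) (H : Hyp a c L L')
    (hA : ∀ y, y ≠ c → (ix L (a, y) < ix L (a, c) ↔ ix L' (a, y) < ix L' (a, c))) :
    Eqv L L' := by
  refine eqv_of_ord (nodup_of_val H.v) (nodup_of_val H.v') H.m ?_
  rintro ⟨e1, e2⟩ ⟨f1, f2⟩ he hf hs hlt
  have he' := (H.m _).1 he
  have hf' := (H.m _).1 hf
  have ve := val_idx H.v he
  have vf := val_idx H.v hf
  simp only at ve vf
  by_cases k1 : e1 ≠ a ∧ f1 ≠ a
  · exact H.ord1 hs k1.1 k1.2 hf hlt
  by_cases k2 : e2 ≠ c ∧ f2 ≠ c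
  · exact H.ord2 hs k2.1 k2.2 hf hlt
  have hne : (e1, e2) ≠ (f1, f2) := by
    intro hh
    rw [hh] at hlt
    exact lt_irrefl _ hlt
  by_cases ea : e1 = a
  · subst ea
    by_cases ec : e2 = c
    · -- e = (a, c)
      subst ec
      by_cases fa : f1 = e1
      · subst fa
        have hfc : f2 ≠ e2 := fun hh => hne (by rw [hh])
        have h1 := hA f2 hfc
        have h2 : ix L' (f1, e2) ≠ ix L' (f1, f2) := ix_ne he' hne
        omega
      · have hfc : f2 = e2 := by
          obtain ⟨x, hx1, hx2⟩ := hs
          simp only at hx1 hx2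
          have g1 := vf.1
          have g2 := vf.2.1
          have g3 := vf.2.2.1
          rcases hx1 with hx1 | hx1 <;> rcases hx2 with hx2 | hx2
          · exact absurd (hx2.trans hx1.symm) fa
          · rw [← hx1] at hx2
            rw [hx2] at g2
            exact absurd g1 (not_le.2 g2)
          · rw [← hx1] at hx2
            rw [hx2] at g2
            exact absurd g3 (not_le.2 g2)
          · rw [hx2, hx1]
        subst hfc
        have g1 : e1 < f1 := lt_of_le_of_ne vf.1 (Ne.symm fa)
        have h1 := hA f1 vf.2.1.ne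
        have h2 := at_ac H.v he g1 vf.2.1
        have h3 := at_ac H.v' he' g1 vf.2.1
        have h4 : ix L' (e1, f2) ≠ ix L' (f1, f2) := ix_ne he' hne
        have h5 : ¬ ix L (f1, f2) < ix L (e1, f2) := by omega
        have h6 := h2.2 h5
        have h7 := h3.1 (h1.1 h6)
        omega
    · -- e = (a, b), b ≠ c, so f2 = c
      have fc : f2 = c := by
        by_contra hh
        exact k2 ⟨ec, hh⟩
      subst fc
      by_cases fa : f1 = e1
      · subst fa
        exact (hA e2 ec).1 hlt
      · have hb : f1 = e2 := by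
          obtain ⟨x, hx1, hx2⟩ := hs
          simp only at hx1 hx2
          have g1 := vf.1
          have g2 := vf.2.1
          rcases hx1 with hx1 | hx1 <;> rcases hx2 with hx2 | hx2
          · exact absurd (hx2.trans hx1.symm) fa
          · rw [← hx1] at hx2
            exact absurd hac (by rw [hx2]; exact lt_irrefl _)
          · rw [hx1, hx2]
          · exact absurd (hx1.trans hx2.symm) ec
        subst hb
        -- e = (a, f1), f = (f1, c)
        have g1 : e1 < f1 := ve.2.1
        have g2 : f1 < f2 := vf.2.1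
        have h1 := (vf.2.2.2.2.1 e1 (le_refl _) g1).1 hlt
        have hm := ix_mem h1
        have hm' := (H.m _).1 hm
        have h2 := at_ac H.v hm g1 g2
        have h3 := at_ac H.v' hm' g1 g2
        have h4 := hA f1 g2.ne
        have h5 : ¬ ix L (f1, f2) < ix L (e1, f2) := by omega
        have h6 := h4.1 (h2.2 h5)
        have h7 := h3.1 h6
        omega
  · have fa : f1 = a := by
      by_contra hh
      exact k1 ⟨ea, hh⟩
    subst fa
    by_cases ec : e2 = c
    · subst ec
      have g0 : f1 < e1 := lt_of_le_of_ne ve.1 (Ne.symm ea)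
      by_cases fc : f2 = e2
      · subst fc
        -- e = (y, c), f = (a, c)
        have g1 := ve.2.1
        have h1 := hA e1 g1.ne
        have h2 := at_ac H.v hf g0 g1
        have h3 := at_ac H.v' hf' g0 g1
        by_contra h4
        have h5 := h1.2 (h3.2 h4)
        exact (h2.1 h5) hlt
      · -- e = (b, c), f = (a, f2)
        have hb : f2 = e1 := by
          obtain ⟨x, hx1, hx2⟩ := hs
          simp only at hx1 hx2
          rcases hx1 with hx1 | hx1 <;> rcases hx2 with hx2 | hx2
          · exact absurd (hx1.trans hx2.symm) ea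
          · rw [hx1, hx2]
          · rw [← hx1] at hx2
            exact absurd hac (by rw [hx2]; exact lt_irrefl _)
          · exact absurd (hx2.trans hx1.symm) fc
        subst hb
        have g1 : f2 < e2 := ve.2.1
        have h1 := (vf.2.2.2.1 e2 g1 (le_refl _)).1 hlt
        have hm := ix_mem h1
        have hm' := (H.m _).1 hm
        have h2 := at_ac H.v hm g0 g1
        have h3 := at_ac H.v' hm' g0 g1
        have h4 := hA f2 g1.ne
        have h5 : ¬ ix L (f1, f2) < ix L (f1, e2) := by omega
        have h6 : ¬ ix L' (f1, f2) < ix L' (f1, e2) := fun hh => h5 (h4.2 hh)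
        have h7 : ix L' (f2, e2) < ix L' (f1, e2) := by
          by_contra hh
          exact h6 (h3.2 hh)
        omega
    · have fc : f2 = c := by
        by_contra hh
        exact k2 ⟨ec, hh⟩
      subst fc
      exact (by
        -- e shares a wire with (a, c), e.1 ≠ a, e.2 ≠ c : impossible
        obtain ⟨x, hx1, hx2⟩ := hs
        simp only at hx1 hx2
        have g1 := ve.1
        have g2 := ve.2.1
        have g3 := ve.2.2.1
        exfalso
        rcases hx1 with hx1 | hx1 <;> rcases hx2 with hx2 | hx2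
        · exact ea (hx1.trans hx2.symm)
        · rw [hx1, ← hx2] at g2
          exact absurd g3 (not_le.2 g2)
        · rw [hx1, ← hx2] at g2
          exact absurd g1 (not_le.2 g2)
        · exact ec (hx1.trans hx2.symm))

end Pool.Agent.X234.BSE
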