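import Pool.Agent.X234.BSE.Step

/-! The part E2 of MP_4f027a_co: assembly. -/

namespace Pool.Agent.X234.BSE

open Pool.Agent.X189.BS

variable {n : ℕ}
variable {a c : Fin (n + 1)} {L L' : List (Fin (n + 1) × Fin (n + 1))}

theorem flip_step (hE1 : S_E1) {q : ℤ} (hq : 0 < q) (hac : a < c) (H : Hyp a c L L')
    (hA : ∀ y, ix L (a, y) < ix L (a, c) → ix L' (a, y) < ix L' (a, c)) (y0 : Fin (n + 1))
    (hy : ix L' (a, y0) < ix L' (a, c)) (hy' : ¬ ix L (a, y0) < ix L (a, c)) :
    ∃ L'', Hyp a c L'' L' ∧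
      L''.foldl (vstep q) (Pi.single a 1) c < L.foldl (vstep q) (Pi.single a 1) c ∧
      (∀ y, ix L'' (a, y) < ix L'' (a, c) → ix L' (a, y) < ix L' (a, c)) ∧
      (∀ y, ix L (a, y) < ix L (a, c) → ix L'' (a, y) < ix L'' (a, c)) ∧
      ∃ b, ix L' (a, b) < ix L' (a, c) ∧ ¬ ix L (a, b) < ix L (a, c) ∧
        ix L'' (a, b) < ix L'' (a, c) := by
  obtain ⟨b, P1, M1, M2, S2, hab, hbc, hL, h1c, h1b, h2a, h2b, hb, hb'⟩ :=
    decomp hac H hA y0 hy hy'
  have e1 : ¬ a = b := hab.ne
  have e2 : ¬ b = c := hbc.ne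
  have e3 : ¬ a = c := hac.ne
  have e1' : ¬ b = a := hab.ne'
  have e2' : ¬ c = b := hbc.ne'
  have e3' : ¬ c = a := hac.ne'
  have hT : Eqv L ((P1 ++ M1) ++ (b, c) :: (a, c) :: (a, b) :: (M2 ++ S2)) := by
    intro x
    rw [hL]
    by_cases xa : x = a
    · subst xa
      simp [loc_append, loc_ite, loc_nil h2a, e1, e2, e3, e1', e2', e3']
    · by_cases xb : x = b
      · subst xb
        simp [loc_append, loc_ite, loc_nil h1b, loc_nil h2b, e1, e2, e3, e1', e2', e3']
      · by_cases xc : x = c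
        · subst xc
          simp [loc_append, loc_ite, loc_nil h1c, e1, e2, e3, e1', e2', e3']
        · have xa' : ¬ a = x := fun h => xa h.symm
          have xb' : ¬ b = x := fun h => xb h.symm
          have xc' : ¬ c = x := fun h => xc h.symm
          simp [loc_append, loc_ite, xa', xb', xc']
  have hvT := val_eqv H.v hT
  have hv'' := val_flip hab hbc hvT
  have hn := nodup_of_val H.v
  have hn'' := nodup_of_val hv''
  have hp := idx_pos (L := L) (P := P1 ++ (b, c) :: M1) (e := (a, c))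
    (S := M2 ++ (a, b) :: S2) hn (by rw [hL]; simp)
  have hp'' := idx_pos (L := (P1 ++ M1) ++ (a, b) :: (a, c) :: (b, c) :: (M2 ++ S2))
    (P := P1 ++ M1 ++ [(a, b)]) (e := (a, c)) (S := (b, c) :: (M2 ++ S2)) hn'' (by simp)
  refine ⟨(P1 ++ M1) ++ (a, b) :: (a, c) :: (b, c) :: (M2 ++ S2), ?_, ?_, ?_, ?_, ?_⟩
  · refine ⟨hv'', H.v', ?_, ?_, ?_⟩
    · intro e
      rw [← H.m e, hL]
      simp only [List.mem_append, List.mem_cons]
      tauto
    · have h1 : ((P1 ++ M1) ++ (a, b) :: (a, c) :: (b, c) :: (M2 ++ S2)).filter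
          (fun e => e.1 ≠ a) = ((P1 ++ M1) ++ (b, c) :: (a, c) :: (a, b) :: (M2 ++ S2)).filter
          (fun e => e.1 ≠ a) := by
        simp [List.filter_cons]
      rw [h1]
      exact eqv_trans (eqv_filter (eqv_symm hT) _) H.f1
    · have h1 : ((P1 ++ M1) ++ (a, b) :: (a, c) :: (b, c) :: (M2 ++ S2)).filter
          (fun e => e.2 ≠ c) = ((P1 ++ M1) ++ (b, c) :: (a, c) :: (a, b) :: (M2 ++ S2)).filter
          (fun e => e.2 ≠ c) := by
        simp [List.filter_cons]
      rw [h1]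
      exact eqv_trans (eqv_filter (eqv_symm hT) _) H.f2
  · have h1 := hE1 n q a b c (P1 ++ M1) (M2 ++ S2) hq hab hbc hv''
    rw [fold_eqv q L _ hT]
    exact h1
  · intro y hyy
    have h1 := (hp'' _).1 hyy
    simp only [List.mem_append, List.mem_cons, List.not_mem_nil, or_false, Prod.mk.injEq,
      true_and] at h1
    rcases h1 with h1 | h1
    · apply hA
      rw [hp]
      simp only [List.mem_append, List.mem_cons]
      tauto
    · rw [h1]; exact hb
  · intro y hyy
    rw [hp''] 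
    have h1 := (hp _).1 hyy
    simp only [List.mem_append, List.mem_cons, List.not_mem_nil, or_false, Prod.mk.injEq,
      true_and, e1, false_and, false_or] at h1 ⊢
    left
    exact h1
  · exact ⟨b, hb, hb', (hp'' _).2 (by simp)⟩

open Classical in
theorem mono (hE1 : S_E1) {q : ℤ} (hq : 0 < q) (hac : a < c) : ∀ (k : ℕ)
    (L : List (Fin (n + 1) × Fin (n + 1))), Hyp a c L L' →
    (∀ y, ix L (a, y) < ix L (a, c) → ix L' (a, y) < ix L' (a, c)) →
    (Finset.univ.filter fun y => ix L' (a, y) < ix L' (a, c) ∧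
      ¬ ix L (a, y) < ix L (a, c)).card ≤ k →
    (∃ y, ix L' (a, y) < ix L' (a, c) ∧ ¬ ix L (a, y) < ix L (a, c)) →
    L'.foldl (vstep q) (Pi.single a 1) c < L.foldl (vstep q) (Pi.single a 1) c := by
  intro k
  induction k with
  | zero =>
    rintro L H hA hk ⟨y, hy⟩
    exfalso
    have : y ∈ (Finset.univ.filter fun y => ix L' (a, y) < ix L' (a, c) ∧
      ¬ ix L (a, y) < ix L (a, c)) := by simpa using hy
    have h0 := Finset.card_eq_zero.1 (Nat.le_zero.1 hk)
    rw [h0] at this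
    simp at this
  | succ k ih =>
    rintro L H hA hk ⟨y, hy⟩
    obtain ⟨L'', H'', hlt, hA'', hmon, b, hb1, hb2, hb3⟩ :=
      flip_step hE1 hq hac H hA y hy.1 hy.2
    by_cases hex : ∃ y, ix L' (a, y) < ix L' (a, c) ∧ ¬ ix L'' (a, y) < ix L'' (a, c)
    · refine lt_trans (ih L'' H'' hA'' ?_ hex) hlt
      have hss : (Finset.univ.filter fun y => ix L' (a, y) < ix L' (a, c) ∧
          ¬ ix L'' (a, y) < ix L'' (a, c)) ⊂
          (Finset.univ.filter fun y => ix L' (a, y) < ix L' (a, c) ∧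
          ¬ ix L (a, y) < ix L (a, c)) := by
        rw [Finset.ssubset_iff_of_subset]
        · refine ⟨b, ?_, ?_⟩
          · rw [Finset.mem_filter]
            exact ⟨Finset.mem_univ _, hb1, hb2⟩
          · rw [Finset.mem_filter]
            exact fun hh => hh.2.2 hb3
        · intro z hz
          rw [Finset.mem_filter] at hz ⊢
          exact ⟨hz.1, hz.2.1, fun hh => hz.2.2 (hmon z hh)⟩
      have := Finset.card_lt_card hss
      omega
    · push Not at hex
      have hE : Eqv L'' L' := by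
        refine same hac H'' ?_
        intro y _
        exact ⟨hA'' y, fun h => hex y h⟩
      rw [← fold_eqv q L'' L' hE]
      exact hlt

theorem nested (H : Hyp a c L L') :
    (∀ y, ix L (a, y) < ix L (a, c) → ix L' (a, y) < ix L' (a, c)) ∨
    (∀ y, ix L' (a, y) < ix L' (a, c) → ix L (a, y) < ix L (a, c)) := by
  by_contra hcon
  push Not at hcon
  obtain ⟨⟨y, hy1, hy2⟩, z, hz1, hz2⟩ := hcon
  have hyc : y ≠ c := by
    rintro rfl
    exact lt_irrefl _ hy1
  have hzc : z ≠ c := by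
    rintro rfl
    exact lt_irrefl _ hz1
  have hzL : (a, z) ∈ L := (H.m _).2 (ix_mem hz1)
  have h1 : ix L (a, y) < ix L (a, z) := by omega
  have h2 : ix L' (a, y) < ix L' (a, z) :=
    H.ord2 ⟨a, Or.inl rfl, Or.inl rfl⟩ hyc hzc hzL h1
  omega

theorem t_E2 (hE1 : S_E1) : S_E2 := by
  intro n q a c L L' hq hac hv hv' hm hf1 hf2 hval
  have H : Hyp a c L L' := ⟨hv, hv', hm, hf1, hf2⟩
  rcases nested H with hA | hA
  · refine same hac H ?_
    intro y _
    refine ⟨hA y, ?_⟩
    intro h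
    by_contra hh
    have := mono hE1 hq hac _ L H hA (le_refl _) ⟨y, h, hh⟩
    rw [hval] at this
    exact lt_irrefl _ this
  · refine same hac H ?_
    intro y _
    refine ⟨?_, hA y⟩
    intro h
    by_contra hh
    have := mono hE1 hq hac _ L' H.symm hA (le_refl _) ⟨y, h, hh⟩
    rw [hval] at this
    exact lt_irrefl _ this

end Pool.Agent.X234.BSE
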