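import Pool.Agent.X234.BSE.Inv

/-! Flip of a triangle and lists with the same order, for the part E2 of MP_4f027a_co. -/

namespace Pool.Agent.X234.BSE

open Pool.Agent.X189.BS

variable {n : ℕ}

/-- the local condition of `Val` -/
def St (a c : Fin (n + 1)) (P : List (Fin (n + 1) × Fin (n + 1)))
    (e : Fin (n + 1) × Fin (n + 1)) : Prop :=
  a ≤ e.1 ∧ e.1 < e.2 ∧ e.2 ≤ c ∧ e ∉ P ∧
    (∀ z, e.2 < z → z ≤ c → ((e.2, z) ∈ P ↔ (e.1, z) ∈ P)) ∧
    (∀ z, a ≤ z → z < e.1 → ((z, e.1) ∈ P ↔ (z, e.2) ∈ P)) ∧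
    (∀ z, e.1 < z → z < e.2 → ((e.1, z) ∈ P ↔ (z, e.2) ∉ P))

def ValF (a c : Fin (n + 1)) :
    List (Fin (n + 1) × Fin (n + 1)) → List (Fin (n + 1) × Fin (n + 1)) → Prop
  | _, [] => True
  | P, e :: S => St a c P e ∧ ValF a c (P ++ [e]) S

lemma valF_append (a c : Fin (n + 1)) : ∀ (A P B : List (Fin (n + 1) × Fin (n + 1))),
    ValF a c P (A ++ B) ↔ ValF a c P A ∧ ValF a c (P ++ A) B := by
  intro A
  induction A with
  | nil => intro P B; simp [ValF]
  | cons e A ih =>
    intro P B
    simp only [List.cons_append, ValF]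
    rw [ih, and_assoc, List.append_assoc]
    rfl

lemma valF_iff (a c : Fin (n + 1)) (Q L : List (Fin (n + 1) × Fin (n + 1))) :
    ValF a c Q L ↔ ∀ P e S, L = P ++ e :: S → St a c (Q ++ P) e := by
  constructor
  · intro h P e S hL
    rw [hL, valF_append] at h
    exact h.2.1
  · induction L generalizing Q with
    | nil => intro _; trivial
    | cons e L ih =>
      intro h
      refine ⟨by simpa using h [] e L rfl, ih _ ?_⟩
      intro P f S hL
      have := h (e :: P) f S (by rw [hL]; rfl)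
      simpa using this

lemma val_iff (a c : Fin (n + 1)) (L : List (Fin (n + 1) × Fin (n + 1))) :
    Val a c L ↔ ValF a c [] L := by
  rw [valF_iff]
  rfl

lemma st_congr {a c : Fin (n + 1)} {P P' : List (Fin (n + 1) × Fin (n + 1))}
    (h : ∀ f, f ∈ P ↔ f ∈ P') (e : Fin (n + 1) × Fin (n + 1)) : St a c P e → St a c P' e := by
  intro hs
  obtain ⟨c1, c2, c3, c4, c5, c6, c7⟩ := hs
  refine ⟨c1, c2, c3, fun hh => c4 ((h _).2 hh), ?_, ?_, ?_⟩
  · intro z h1 h2
    rw [← h, ← h]; exact c5 z h1 h2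
  · intro z h1 h2
    rw [← h, ← h]; exact c6 z h1 h2
  · intro z h1 h2
    rw [← h, ← h]; exact c7 z h1 h2

lemma valF_congr {a c : Fin (n + 1)} : ∀ {L P P' : List (Fin (n + 1) × Fin (n + 1))},
    (∀ f, f ∈ P ↔ f ∈ P') → ValF a c P L → ValF a c P' L := by
  intro L
  induction L with
  | nil => intro _ _ _ _; trivial
  | cons e L ih =>
    intro P P' h hv
    exact ⟨st_congr h e hv.1, ih (by intro f; simp [h]) hv.2⟩

theorem val_flip {a b c : Fin (n + 1)} {P S : List (Fin (n + 1) × Fin (n + 1))} (hab : a < b)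
    (hbc : b < c) (h : Val a c (P ++ (b, c) :: (a, c) :: (a, b) :: S)) :
    Val a c (P ++ (a, b) :: (a, c) :: (b, c) :: S) := by
  rw [val_iff, valF_append] at h ⊢
  refine ⟨h.1, ?_⟩
  obtain ⟨-, h1, h2, h3, h4⟩ := h
  simp only [List.nil_append, List.append_assoc, List.cons_append, List.singleton_append] at *
  have hac : a < c := hab.trans hbc
  obtain ⟨p1, p2, p3, p4, p5, p6, p7⟩ := h1
  obtain ⟨q1, q2, q3, q4, q5, q6, q7⟩ := h2
  obtain ⟨r1, r2, r3, r4, r5, r6, r7⟩ := h3
  simp only [List.mem_append, List.mem_cons, List.not_mem_nil, or_false, Prod.mk.injEq,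
    List.append_assoc] at *
  have e1 : ¬ a = b := hab.ne
  have e2 : ¬ b = c := hbc.ne
  have e3 : ¬ a = c := hac.ne
  have e1' : ¬ b = a := hab.ne'
  have e2' : ¬ c = b := hbc.ne'
  have e3' : ¬ c = a := hac.ne'
  push Not at q4 r4
  refine ⟨⟨le_refl _, hab, hbc.le, r4.1, ?_, ?_, ?_⟩,
    ⟨le_refl _, hac, le_refl _, ?_, ?_, ?_, ?_⟩,
    ⟨hab.le, hbc, le_refl _, ?_, ?_, ?_, ?_⟩, ?_⟩
  · intro z h1 h2
    by_cases hz : z = c
    · subst hz
      simp [p4, q4.1]
    · have := r5 z h1 h2
      simpa [hz, e1, e2, e3, e1', e2', e3'] using this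
  · intro z h1 h2
    exact absurd h1 (not_le.2 h2)
  · intro z h1 h2
    have := r7 z h1 h2
    have hz : ¬ z = c := (h2.trans hbc).ne
    have hz' : ¬ z = b := h2.ne
    have hz'' : ¬ z = a := h1.ne'
    simpa [hz, hz', hz'', e1, e2, e3, e1', e2', e3'] using this
  · simp [q4.1, e1, e2, e3, e1', e2', e3']
  · intro z h1 h2
    exact absurd h2 (not_le.2 h1)
  · intro z h1 h2
    exact absurd h1 (not_le.2 h2)
  · intro z h1 h2
    have := q7 z h1 h2
    by_cases hz : z = b
    · subst hz
      simp [p4, e1, e2, e3, e1', e2', e3']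
    · have hz' : ¬ z = c := h2.ne
      have hz'' : ¬ z = a := h1.ne'
      simpa [hz, hz', hz'', e1, e2, e3, e1', e2', e3'] using this
  · simp [p4, e1, e2, e3, e1', e2', e3']
  · intro z h1 h2
    exact absurd h2 (not_le.2 h1)
  · intro z h1 h2
    by_cases hz : z = a
    · subst hz
      simp
    · have hz' : ¬ z = b := h2.ne
      have hz'' : ¬ z = c := (h2.trans hbc).ne
      have := p6 z h1 h2
      simpa [hz, hz', hz'', e1, e2, e3, e1', e2', e3'] using this
  · intro z h1 h2
    have := p7 z h1 h2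
    have hz : ¬ z = b := h1.ne'
    have hz' : ¬ z = a := (hab.trans h1).ne'
    have hz'' : ¬ z = c := h2.ne
    simpa [hz, hz', hz'', e1, e2, e3, e1', e2', e3'] using this
  · refine valF_congr ?_ h4
    intro f
    simp only [List.mem_append, List.mem_cons, List.not_mem_nil, or_false]
    tauto

/-- `e` is before `f` in `L` -/
def bef {α : Type*} (L : List α) (e f : α) : Prop := ∃ P S, L = P ++ f :: S ∧ e ∈ P

theorem eq_of_bef {α : Type*} : ∀ (L L' : List α), L.Nodup → L'.Nodup →
    (∀ e, e ∈ L ↔ e ∈ L') → (∀ e f, bef L e f → bef L' e f) → L = L' := by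
  intro L
  induction L with
  | nil =>
    intro L' _ _ h _
    symm
    rw [List.eq_nil_iff_forall_not_mem]
    intro e he
    have := (h e).2 he
    simp at this
  | cons e L ih =>
    intro L' hn hn' h hb
    obtain ⟨A, B, hAB, hnot⟩ := List.eq_append_cons_of_mem ((h e).1 (by simp))
    have hA : A = [] := by
      rw [List.eq_nil_iff_forall_not_mem]
      intro f hf
      have hfe : f ≠ e := fun hh => hnot (hh ▸ hf)
      have hfL : f ∈ L := by
        have := (h f).2 (by rw [hAB]; simp [hf])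
        rcases List.mem_cons.1 this with h1 | h1
        · exact absurd h1 hfe
        · exact h1
      obtain ⟨C, D, hCD⟩ := List.append_of_mem hfL
      obtain ⟨P, S, hPS, heP⟩ := hb e f ⟨e :: C, D, by rw [hCD]; rfl, by simp⟩
      obtain ⟨A1, A2, hA12⟩ := List.append_of_mem hf
      have hn2 := hn'
      have hu : A1 ++ f :: (A2 ++ e :: B) = P ++ f :: S := by
        rw [← hPS, hAB, hA12]; simp
      have hn3 : (A1 ++ f :: (A2 ++ e :: B)).Nodup := by
        rw [hu, ← hPS]; exact hn'
      have h5 : f ∉ A1 := by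
        intro hh
        have := List.nodup_append.1 hn3
        exact this.2.2 f hh f (by simp) rfl
      have h6 : f ∉ A2 ++ e :: B := by
        have := (List.nodup_append.1 hn3).2.1
        exact (List.nodup_cons.1 this).1
      obtain ⟨h7, -⟩ := split_unique hu h5 h6
      apply hnot
      rw [hA12, h7]
      simp [heP]
    subst hA
    rw [List.nil_append] at hAB
    subst hAB
    rw [List.nodup_cons] at hn hn'
    congr 1
    refine ih B hn.2 hn'.2 ?_ ?_
    · intro f
      have := h f
      simp only [List.mem_cons] at this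
      by_cases hf : f = e
      · subst hf
        exact ⟨fun hh => absurd hh hn.1, fun hh => absurd hh hn'.1⟩
      · simpa [hf] using this
    · intro f g hfg
      obtain ⟨P, S, hPS, hfP⟩ := hfg
      obtain ⟨P', S', hPS', hfP'⟩ := hb f g ⟨e :: P, S, by rw [hPS]; rfl, by simp [hfP]⟩
      cases P' with
      | nil => simp at hfP'
      | cons e' P' =>
        rw [List.cons_append] at hPS'
        obtain ⟨k1, k2⟩ := List.cons.inj hPS'
        refine ⟨P', S', k2, ?_⟩
        rcases List.mem_cons.1 hfP' with h1 | h1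
        · exfalso
          apply hn.1
          rw [k1, ← h1, hPS]
          simp [hfP]
        · exact h1

end Pool.Agent.X234.BSE
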