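import Pool.Agent.X189.BS.Stm

/-! Invariance lemmas for the part E2 of MP_4f027a_co. -/

namespace Pool.Agent.X234.BSE

open Pool.Agent.X189.BS

variable {n : ℕ}

lemma mem_loc {x : Fin (n + 1)} {L : List (Fin (n + 1) × Fin (n + 1))}
    {e : Fin (n + 1) × Fin (n + 1)} : e ∈ loc x L ↔ e ∈ L ∧ (e.1 = x ∨ e.2 = x) := by
  simp [loc]

lemma loc_append (x : Fin (n + 1)) (A B : List (Fin (n + 1) × Fin (n + 1))) :
    loc x (A ++ B) = loc x A ++ loc x B := by
  simp [loc]

lemma loc_cons_pos {x : Fin (n + 1)} {e : Fin (n + 1) × Fin (n + 1)} (h : e.1 = x ∨ e.2 = x)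
    (B : List (Fin (n + 1) × Fin (n + 1))) :
    loc x (e :: B) = e :: loc x B := by
  unfold loc
  rw [List.filter_cons_of_pos]
  simpa using h

lemma loc_cons_neg {x : Fin (n + 1)} {e : Fin (n + 1) × Fin (n + 1)} (h : ¬ (e.1 = x ∨ e.2 = x))
    (B : List (Fin (n + 1) × Fin (n + 1))) :
    loc x (e :: B) = loc x B := by
  unfold loc
  rw [List.filter_cons_of_neg]
  simpa using h

/-- disjoint crossings -/
def Dis (e f : Fin (n + 1) × Fin (n + 1)) : Prop :=
  e.1 ≠ f.1 ∧ e.1 ≠ f.2 ∧ e.2 ≠ f.1 ∧ e.2 ≠ f.2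

lemma vstep_comm (q : ℤ) (X : Fin (n + 1) → ℤ) {e f : Fin (n + 1) × Fin (n + 1)}
    (h : Dis e f) : vstep q (vstep q X e) f = vstep q (vstep q X f) e := by
  obtain ⟨h1, h2, h3, h4⟩ := h
  funext z
  have h1' := h1.symm
  have h2' := h2.symm
  have h3' := h3.symm
  have h4' := h4.symm
  simp only [vstep]
  by_cases a1 : z = e.1
  · subst a1
    simp [*]
    try ring
  · by_cases a2 : z = e.2
    · subst a2
      simp [*]
      try ring
    · by_cases a3 : z = f.1
      · subst a3
        simp [*]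
        try ring
      · by_cases a4 : z = f.2
        · subst a4
          simp [*]
          try ring
        · simp [*]

lemma fold_front (q : ℤ) (e : Fin (n + 1) × Fin (n + 1)) :
    ∀ (A : List (Fin (n + 1) × Fin (n + 1))), (∀ f ∈ A, Dis e f) → ∀ X : Fin (n + 1) → ℤ,
      A.foldl (vstep q) (vstep q X e) = vstep q (A.foldl (vstep q) X) e := by
  intro A
  induction A with
  | nil => intro _ X; rfl
  | cons f A ih =>
    intro h X
    simp only [List.foldl_cons]
    rw [vstep_comm q X (h f (by simp)), ih (fun g hg => h g (by simp [hg]))]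

/-- if `e` is the first crossing of `L` then in an equivalent list only crossings disjoint from
`e` precede it -/
lemma eqv_cons {e : Fin (n + 1) × Fin (n + 1)} {L L' : List (Fin (n + 1) × Fin (n + 1))}
    (h : Eqv (e :: L) L') :
    ∃ A B, L' = A ++ e :: B ∧ (∀ f ∈ A, Dis e f) ∧ Eqv L (A ++ B) := by
  have hmem : e ∈ L' := by
    have h1 := h e.1
    rw [loc_cons_pos (Or.inl rfl)] at h1
    have : e ∈ loc e.1 L' := by rw [← h1]; simp
    exact (mem_loc.1 this).1
  obtain ⟨A, B, hAB, hnot⟩ := List.eq_append_cons_of_mem hmem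
  have key : ∀ x, (e.1 = x ∨ e.2 = x) → loc x A = [] := by
    intro x hx
    have h1 := h x
    rw [loc_cons_pos hx, hAB, loc_append, loc_cons_pos hx] at h1
    cases hA : loc x A with
    | nil => rfl
    | cons f A' =>
      rw [hA, List.cons_append] at h1
      have h2 := (List.cons.inj h1).1
      exfalso
      apply hnot
      have : f ∈ loc x A := by rw [hA]; simp
      rw [h2]
      exact (mem_loc.1 this).1
  refine ⟨A, B, hAB, ?_, ?_⟩
  · intro f hf
    have k1 : ∀ x, (e.1 = x ∨ e.2 = x) → ¬ (f.1 = x ∨ f.2 = x) := by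
      intro x hx hfx
      have : f ∈ loc x A := mem_loc.2 ⟨hf, hfx⟩
      rw [key x hx] at this
      simp at this
    have k2 := k1 e.1 (Or.inl rfl)
    have k3 := k1 e.2 (Or.inr rfl)
    refine ⟨fun hh => k2 (Or.inl hh.symm), fun hh => k2 (Or.inr hh.symm),
      fun hh => k3 (Or.inl hh.symm), fun hh => k3 (Or.inr hh.symm)⟩
  · intro x
    have h1 := h x
    rw [hAB, loc_append] at h1
    rw [loc_append]
    by_cases hx : e.1 = x ∨ e.2 = x
    · rw [loc_cons_pos hx, loc_cons_pos hx, key x hx] at h1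
      rw [key x hx]
      exact (List.cons.inj h1).2
    · rw [loc_cons_neg hx, loc_cons_neg hx] at h1
      exact h1

theorem fold_eqv (q : ℤ) : ∀ (L L' : List (Fin (n + 1) × Fin (n + 1))), Eqv L L' →
    ∀ X : Fin (n + 1) → ℤ, L.foldl (vstep q) X = L'.foldl (vstep q) X := by
  intro L
  induction L with
  | nil =>
    intro L' h X
    have : L' = [] := by
      cases L' with
      | nil => rfl
      | cons f L' =>
        exfalso
        have h1 := h f.1
        rw [loc_cons_pos (Or.inl rfl)] at h1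
        simp [loc] at h1
    rw [this]
  | cons e L ih =>
    intro L' h X
    obtain ⟨A, B, hAB, hd, hE⟩ := eqv_cons h
    rw [hAB, List.foldl_cons, ih _ hE, List.foldl_append, List.foldl_append, List.foldl_cons,
      fold_front q e A hd]

lemma split_unique {α : Type*} {e : α} : ∀ {A B A' B' : List α}, A ++ e :: B = A' ++ e :: B' →
    e ∉ A → e ∉ B → A = A' ∧ B = B' := by
  intro A
  induction A with
  | nil =>
    intro B A' B' h _ hB
    cases A' with
    | nil => simpa using h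
    | cons f A' =>
      exfalso
      rw [List.nil_append, List.cons_append] at h
      obtain ⟨h1, h2⟩ := List.cons.inj h
      apply hB
      rw [h2]
      simp
  | cons f A ih =>
    intro B A' B' h hA hB
    cases A' with
    | nil =>
      exfalso
      rw [List.nil_append, List.cons_append] at h
      obtain ⟨h1, h2⟩ := List.cons.inj h
      apply hA
      rw [h1]
      simp
    | cons g A' =>
      rw [List.cons_append, List.cons_append] at h
      obtain ⟨h1, h2⟩ := List.cons.inj h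
      obtain ⟨h3, h4⟩ := ih h2 (fun hh => hA (by simp [hh])) hB
      exact ⟨by rw [h1, h3], h4⟩

lemma val_nodup {a c : Fin (n + 1)} {L : List (Fin (n + 1) × Fin (n + 1))} (h : Val a c L) :
    ∀ P e S, L = P ++ e :: S → e ∉ P ∧ e ∉ S := by
  intro P e S hL
  refine ⟨(h P e S hL).2.2.2.1, ?_⟩
  intro hS
  obtain ⟨S1, S2, hS12⟩ := List.append_of_mem hS
  have := (h (P ++ e :: S1) e S2 (by rw [hL, hS12]; simp)).2.2.2.1
  apply this
  simp

lemma eqv_mem {L L' : List (Fin (n + 1) × Fin (n + 1))} (h : Eqv L L')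
    (e : Fin (n + 1) × Fin (n + 1)) : e ∈ L ↔ e ∈ L' := by
  have h1 : e ∈ L ↔ e ∈ loc e.1 L := by simp [mem_loc]
  have h2 : e ∈ L' ↔ e ∈ loc e.1 L' := by simp [mem_loc]
  rw [h1, h2, h e.1]

theorem val_eqv {a c : Fin (n + 1)} {L L' : List (Fin (n + 1) × Fin (n + 1))} (hv : Val a c L)
    (h : Eqv L L') : Val a c L' := by
  intro P' e S' hL'
  have heL : e ∈ L := (eqv_mem h e).2 (by rw [hL']; simp)
  obtain ⟨P, S, hL⟩ := List.append_of_mem heL
  obtain ⟨c1, c2, c3, c4, c5, c6, c7⟩ := hv P e S hL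
  obtain ⟨d1, d2⟩ := val_nodup hv P e S hL
  have key : ∀ x, (e.1 = x ∨ e.2 = x) → ∀ f : Fin (n + 1) × Fin (n + 1),
      (f.1 = x ∨ f.2 = x) → (f ∈ P' ↔ f ∈ P) := by
    intro x hx f hf
    have h1 := h x
    rw [hL, hL', loc_append, loc_append, loc_cons_pos hx, loc_cons_pos hx] at h1
    obtain ⟨h2, -⟩ := split_unique h1 (fun hh => d1 (mem_loc.1 hh).1)
      (fun hh => d2 (mem_loc.1 hh).1)
    have k1 : f ∈ P ↔ f ∈ loc x P := by simp [mem_loc, hf]
    have k2 : f ∈ P' ↔ f ∈ loc x P' := by simp [mem_loc, hf]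
    rw [k1, k2, h2]
  have i1 : e.1 = e.1 ∨ e.2 = e.1 := Or.inl rfl
  have i2 : e.1 = e.2 ∨ e.2 = e.2 := Or.inr rfl
  refine ⟨c1, c2, c3, ?_, ?_, ?_, ?_⟩
  · rw [key e.1 i1 e i1]; exact c4
  · intro z hz hz'
    rw [key e.2 i2 (e.2, z) (Or.inl rfl), key e.1 i1 (e.1, z) (Or.inl rfl)]
    exact c5 z hz hz'
  · intro z hz hz'
    rw [key e.1 i1 (z, e.1) (Or.inr rfl), key e.2 i2 (z, e.2) (Or.inr rfl)]
    exact c6 z hz hz'
  · intro z hz hz'
    rw [key e.1 i1 (e.1, z) (Or.inl rfl), key e.2 i2 (z, e.2) (Or.inr rfl)]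
    exact c7 z hz hz'

end Pool.Agent.X234.BSE
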