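import Pool.Agent.X234.BSE.Flip

/-! The part E2 of MP_4f027a_co. -/

namespace Pool.Agent.X234.BSE

open Pool.Agent.X189.BS

variable {n : ℕ}

/-- position, with a fixed decidable equality -/
def ix {α : Type*} [DecidableEq α] (L : List α) (e : α) : ℕ := L.idxOf e

lemma idx_pos {α : Type*} [DecidableEq α] {L P S : List α} {e : α} (hn : L.Nodup)
    (h : L = P ++ e :: S) (f : α) : ix L f < ix L e ↔ f ∈ P := by
  subst h
  unfold ix
  have h1 : e ∉ P := by
    intro hh
    exact (List.nodup_append.1 hn).2.2 e hh e (by simp) rfl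
  rw [List.idxOf_append_of_notMem h1, List.idxOf_cons_self]
  constructor
  · intro h2
    by_contra h3
    rw [List.idxOf_append_of_notMem h3] at h2
    omega
  · intro h2
    rw [List.idxOf_append_of_mem h2]
    have := List.idxOf_lt_length_of_mem h2
    omega

lemma bef_idx {α : Type*} [DecidableEq α] {L : List α} (hn : L.Nodup) (e f : α) :
    bef L e f ↔ f ∈ L ∧ ix L e < ix L f := by
  constructor
  · rintro ⟨P, S, h, he⟩
    exact ⟨by rw [h]; simp, (idx_pos hn h e).2 he⟩
  · rintro ⟨hf, h⟩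
    obtain ⟨P, S, hL⟩ := List.append_of_mem hf
    exact ⟨P, S, hL, (idx_pos hn hL e).1 h⟩

lemma bef_sub {α : Type*} {L : List α} (e f : α) : bef L e f ↔ [e, f].Sublist L := by
  constructor
  · rintro ⟨P, S, h, he⟩
    rw [h]
    have h1 : [e].Sublist P := List.singleton_sublist.2 he
    have h2 : [f].Sublist (f :: S) := List.singleton_sublist.2 (by simp)
    exact List.Sublist.append h1 h2
  · intro h
    obtain ⟨r1, r2, h1, h2, h3⟩ := List.cons_sublist_iff.1 h
    have h4 : f ∈ r2 := List.singleton_sublist.1 h3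
    obtain ⟨C, D, hCD⟩ := List.append_of_mem h4
    exact ⟨r1 ++ C, D, by rw [h1, hCD]; simp, by simp [h2]⟩

lemma nodup_of_val {a c : Fin (n + 1)} {L : List (Fin (n + 1) × Fin (n + 1))}
    (h : Val a c L) : L.Nodup := by
  rw [List.nodup_iff_sublist]
  intro e he
  obtain ⟨P, S, h1, h2⟩ := (bef_sub e e).2 he
  exact (h P e S h1).2.2.2.1 h2

lemma bef_filter {α : Type*} {L : List α} {p : α → Bool} {e f : α} (he : p e = true)
    (hf : p f = true) (h : bef L e f) : bef (L.filter p) e f := by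
  rw [bef_sub] at h ⊢
  have := h.filter p
  simpa [List.filter_cons, he, hf] using this

lemma bef_of_filter {α : Type*} {L : List α} {p : α → Bool} {e f : α}
    (h : bef (L.filter p) e f) : bef L e f := by
  rw [bef_sub] at h ⊢
  exact h.trans List.filter_sublist

/-- sharing a wire -/
def Sh (e f : Fin (n + 1) × Fin (n + 1)) : Prop :=
  ∃ x, (e.1 = x ∨ e.2 = x) ∧ (f.1 = x ∨ f.2 = x)

lemma bef_of_eqv {L L' : List (Fin (n + 1) × Fin (n + 1))} (h : Eqv L L')
    {e f : Fin (n + 1) × Fin (n + 1)} (hs : Sh e f) (hb : bef L e f) : bef L' e f := by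
  obtain ⟨x, h1, h2⟩ := hs
  have h3 : bef (loc x L) e f := by
    unfold loc
    exact bef_filter (by simpa using h1) (by simpa using h2) hb
  rw [h x] at h3
  exact bef_of_filter h3

lemma ord_of_filter {L L' : List (Fin (n + 1) × Fin (n + 1))} (hn : L.Nodup) (hn' : L'.Nodup)
    {p : Fin (n + 1) × Fin (n + 1) → Bool} (h : Eqv (L.filter p) (L'.filter p))
    {e f : Fin (n + 1) × Fin (n + 1)} (hs : Sh e f) (he : p e = true) (hf : p f = true)
    (hfL : f ∈ L) (hb : ix L e < ix L f) : ix L' e < ix L' f := by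
  have h1 : bef L e f := (bef_idx hn e f).2 ⟨hfL, hb⟩
  have h2 := bef_filter he hf h1
  have h3 := bef_of_eqv h hs h2
  exact ((bef_idx hn' e f).1 (bef_of_filter h3)).2

lemma eqv_of_ord {L L' : List (Fin (n + 1) × Fin (n + 1))} (hn : L.Nodup) (hn' : L'.Nodup)
    (hm : ∀ e, e ∈ L ↔ e ∈ L')
    (h : ∀ e f, e ∈ L → f ∈ L → Sh e f → ix L e < ix L f → ix L' e < ix L' f) :
    Eqv L L' := by
  intro x
  refine eq_of_bef _ _ (hn.filter _) (hn'.filter _) ?_ ?_
  · intro e
    rw [mem_loc, mem_loc, hm]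
  · intro e f hb
    have hb1 : bef L e f := bef_of_filter hb
    have hb2 := (bef_sub e f).1 hb
    have he : e ∈ loc x L := hb2.subset (by simp)
    have hf : f ∈ loc x L := hb2.subset (by simp)
    rw [mem_loc] at he hf
    have h1 := h e f he.1 hf.1 ⟨x, he.2, hf.2⟩ ((bef_idx hn e f).1 hb1).2
    have h2 : bef L' e f := (bef_idx hn' e f).2 ⟨(hm f).1 hf.1, h1⟩
    unfold loc
    exact bef_filter (by simpa using he.2) (by simpa using hf.2) h2

lemma val_idx {a c : Fin (n + 1)} {L : List (Fin (n + 1) × Fin (n + 1))} (hv : Val a c L)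
    {e : Fin (n + 1) × Fin (n + 1)} (he : e ∈ L) :
    a ≤ e.1 ∧ e.1 < e.2 ∧ e.2 ≤ c ∧
    (∀ z, e.2 < z → z ≤ c → (ix L (e.2, z) < ix L e ↔ ix L (e.1, z) < ix L e)) ∧
    (∀ z, a ≤ z → z < e.1 → (ix L (z, e.1) < ix L e ↔ ix L (z, e.2) < ix L e)) ∧
    (∀ z, e.1 < z → z < e.2 →
      (ix L (e.1, z) < ix L e ↔ ¬ ix L (z, e.2) < ix L e)) := by
  obtain ⟨P, S, hL⟩ := List.append_of_mem he
  have hn := nodup_of_val hv
  obtain ⟨c1, c2, c3, -, c5, c6, c7⟩ := hv P e S hL
  have hp := idx_pos hn hL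
  refine ⟨c1, c2, c3, ?_, ?_, ?_⟩
  · intro z h1 h2
    rw [hp, hp]; exact c5 z h1 h2
  · intro z h1 h2
    rw [hp, hp]; exact c6 z h1 h2
  · intro z h1 h2
    rw [hp, hp]; exact c7 z h1 h2

lemma eqv_symm {L L' : List (Fin (n + 1) × Fin (n + 1))} (h : Eqv L L') : Eqv L' L :=
  fun x => (h x).symm

lemma eqv_trans {L L' L'' : List (Fin (n + 1) × Fin (n + 1))} (h : Eqv L L')
    (h' : Eqv L' L'') : Eqv L L'' :=
  fun x => (h x).trans (h' x)

lemma eqv_filter {L L' : List (Fin (n + 1) × Fin (n + 1))} (h : Eqv L L')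
    (p : Fin (n + 1) × Fin (n + 1) → Bool) : Eqv (L.filter p) (L'.filter p) := by
  intro x
  have h1 := h x
  have h2 : ∀ M : List (Fin (n + 1) × Fin (n + 1)), loc x (M.filter p) = (loc x M).filter p := by
    intro M
    unfold loc
    rw [List.filter_filter, List.filter_filter]
    congr 1
    funext e
    exact Bool.and_comm _ _
  rw [h2, h2, h1]

lemma first_of_mem {α : Type*} {p : α → Prop} : ∀ (L : List α), (∃ e ∈ L, p e) →
    ∃ M e S, L = M ++ e :: S ∧ p e ∧ ∀ f ∈ M, ¬ p f := by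
  classical
  intro L
  induction L with
  | nil => rintro ⟨e, he, -⟩; simp at he
  | cons f L ih =>
    rintro ⟨e, he, hpe⟩
    by_cases hf : p f
    · exact ⟨[], f, L, rfl, hf, by simp⟩
    · rcases List.mem_cons.1 he with h1 | h1
      · exact absurd (h1 ▸ hpe) hf
      · obtain ⟨M, g, S, h2, h3, h4⟩ := ih ⟨e, h1, hpe⟩
        refine ⟨f :: M, g, S, by rw [h2]; rfl, h3, ?_⟩
        intro k hk
        rcases List.mem_cons.1 hk with h5 | h5
        · rw [h5]; exact hf
        · exact h4 k h5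

end Pool.Agent.X234.BSE
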