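import Pool.Agent.X234.BSE.E2

/-! The part E2 of MP_4f027a_co: one flip. -/

namespace Pool.Agent.X234.BSE

open Pool.Agent.X189.BS

variable {n : ℕ}
variable {a c : Fin (n + 1)} {L L' : List (Fin (n + 1) × Fin (n + 1))}

lemma loc_ite (x : Fin (n + 1)) (e : Fin (n + 1) × Fin (n + 1))
    (B : List (Fin (n + 1) × Fin (n + 1))) :
    loc x (e :: B) = if e.1 = x ∨ e.2 = x then e :: loc x B else loc x B := by
  split_ifs with h
  · exact loc_cons_pos h B
  · exact loc_cons_neg h B

lemma loc_nil {x : Fin (n + 1)} {M : List (Fin (n + 1) × Fin (n + 1))}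
    (h : ∀ f ∈ M, ¬ (f.1 = x ∨ f.2 = x)) : loc x M = [] := by
  rw [List.eq_nil_iff_forall_not_mem]
  intro f hf
  rw [mem_loc] at hf
  exact h f hf.1 hf.2

/-- decomposition of `L` around the triangle to flip -/
theorem decomp (hac : a < c) (H : Hyp a c L L')
    (hA : ∀ y, ix L (a, y) < ix L (a, c) → ix L' (a, y) < ix L' (a, c)) (y0 : Fin (n + 1))
    (hy : ix L' (a, y0) < ix L' (a, c)) (hy' : ¬ ix L (a, y0) < ix L (a, c)) :
    ∃ b P1 M1 M2 S2, a < b ∧ b < c ∧
      L = P1 ++ (b, c) :: (M1 ++ (a, c) :: (M2 ++ (a, b) :: S2)) ∧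
      (∀ f ∈ M1, ¬ (f.1 = c ∨ f.2 = c)) ∧ (∀ f ∈ M1, ¬ (f.1 = b ∨ f.2 = b)) ∧
      (∀ f ∈ M2, ¬ (f.1 = a ∨ f.2 = a)) ∧ (∀ f ∈ M2, ¬ (f.1 = b ∨ f.2 = b)) ∧
      ix L' (a, b) < ix L' (a, c) ∧ ¬ ix L (a, b) < ix L (a, c) := by
  have hn := nodup_of_val H.v
  have hn' := nodup_of_val H.v'
  have hy0L' : (a, y0) ∈ L' := ix_mem hy
  have hy0L : (a, y0) ∈ L := (H.m _).2 hy0L'
  have hy0c : y0 ≠ c := by
    rintro rfl
    exact lt_irrefl _ hy
  have hacL : (a, c) ∈ L := by
    by_contra hh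
    have h1 := (ix_lt_iff L (a, c)).not.2 hh
    have h2 := (ix_lt_iff L (a, y0)).2 hy0L
    omega
  have hacL' : (a, c) ∈ L' := (H.m _).1 hacL
  obtain ⟨P0, S0, hL0⟩ := List.append_of_mem hacL
  have hp0 := idx_pos hn hL0
  have hy0S : (a, y0) ∈ S0 := by
    have h1 := hy0L
    rw [hL0] at h1
    rcases List.mem_append.1 h1 with h2 | h2
    · exact absurd ((hp0 _).2 h2) hy'
    · rcases List.mem_cons.1 h2 with h3 | h3
      · exact absurd (Prod.mk.inj h3).2 hy0c
      · exact h3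
  obtain ⟨M2, e0, S2, hS0, he0, hM2⟩ := first_of_mem (p := fun e => e.1 = a) S0 ⟨_, hy0S, rfl⟩
  obtain ⟨e01, b⟩ := e0
  simp only at he0
  subst he0
  have hL2 : L = (P0 ++ (e01, c) :: M2) ++ (e01, b) :: S2 := by rw [hL0, hS0]; simp
  have hp2 := idx_pos hn hL2
  have habL : (e01, b) ∈ L := by rw [hL2]; simp
  have habL' := (H.m _).1 habL
  have vab := val_idx H.v habL
  have vab' := val_idx H.v' habL'
  simp only at vab vab'
  have hab : e01 < b := vab.2.1
  have l1 : ix L (e01, c) < ix L (e01, b) := (hp2 _).2 (by simp)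
  have hbc' : b ≠ c := by
    rintro rfl
    exact lt_irrefl _ l1
  have hbc : b < c := lt_of_le_of_ne vab.2.2.1 hbc'
  have hb' : ix L' (e01, b) < ix L' (e01, c) := by
    by_cases hbb : b = y0
    · rw [hbb]; exact hy
    · have h1 : (e01, y0) ∈ S2 := by
        rw [hS0] at hy0S
        rcases List.mem_append.1 hy0S with h2 | h2
        · exact absurd rfl (hM2 _ h2)
        · rcases List.mem_cons.1 h2 with h3 | h3
          · exact absurd (Prod.mk.inj h3).2.symm hbb
          · exact h3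
      have h2 := ix_split hn hL2 h1
      have h3 : ix L' (e01, b) < ix L' (e01, y0) :=
        H.ord2 ⟨e01, Or.inl rfl, Or.inl rfl⟩ hbc' hy0c hy0L h2
      omega
  have l2 := at_ac H.v hacL hab hbc
  have l2' := at_ac H.v' hacL' hab hbc
  have l3 : ix L (b, c) < ix L (e01, c) := by
    by_contra hh
    have := l2.2 hh
    omega
  have hbcP : (b, c) ∈ P0 := (hp0 _).1 l3
  have hbcL : (b, c) ∈ L := ix_mem l3
  have hbcL' := (H.m _).1 hbcL
  have l4 : ix L' (e01, c) < ix L' (b, c) := by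
    have h1 := l2'.1 hb'
    have h2 : ix L' (e01, c) ≠ ix L' (b, c) :=
      ix_ne hacL' (fun hh => hab.ne (Prod.mk.inj hh).1)
    omega
  have vbc := val_idx H.v hbcL
  simp only at vbc
  obtain ⟨P1, M1, hP0⟩ := List.append_of_mem hbcP
  have hL1 : L = P1 ++ (b, c) :: (M1 ++ (e01, c) :: S0) := by rw [hL0, hP0]; simp
  have hM1c : ∀ f ∈ M1, ¬ (f.1 = c ∨ f.2 = c) := by
    rintro ⟨y, f2⟩ hf hff
    have hfL : (y, f2) ∈ L := by rw [hL1]; simp [hf]
    have hfL' := (H.m _).1 hfL
    have vf := val_idx H.v hfL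
    simp only at hff vf
    have hf2 : f2 = c := by
      rcases hff with h1 | h1
      · rw [h1] at vf
        exact absurd vf.2.2.1 (not_le.2 vf.2.1)
      · exact h1
    subst hf2
    have m1 : ix L (b, f2) < ix L (y, f2) := ix_split hn hL1 (by simp [hf])
    have m2 : ix L (y, f2) < ix L (e01, f2) := (hp0 _).2 (by rw [hP0]; simp [hf])
    have hya : y ≠ e01 := by
      rintro rfl
      exact lt_irrefl _ m2
    have hyb : y ≠ b := by
      rintro rfl
      exact lt_irrefl _ m1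
    have hay : e01 < y := lt_of_le_of_ne vf.1 (Ne.symm hya)
    have hyc : y < f2 := vf.2.1
    have m3 : ix L' (b, f2) < ix L' (y, f2) :=
      H.ord1 ⟨f2, Or.inr rfl, Or.inr rfl⟩ hab.ne' hya hfL m1
    have m4 := at_ac H.v' hacL' hay hyc
    have m5 : ix L' (e01, y) < ix L' (e01, f2) := m4.2 (by omega)
    have m6 := at_ac H.v hacL hay hyc
    have m7 : ¬ ix L (e01, y) < ix L (e01, f2) := fun hh => (m6.1 hh) m2
    have hayL' : (e01, y) ∈ L' := ix_mem m5
    have hayL := (H.m _).2 hayL'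
    have m8 : (e01, y) ∈ S2 := by
      have h1 := hayL
      rw [hL0] at h1
      rcases List.mem_append.1 h1 with h2 | h2
      · exact absurd ((hp0 _).2 h2) m7
      · rcases List.mem_cons.1 h2 with h3 | h3
        · exact absurd (Prod.mk.inj h3).2 hyc.ne
        · rw [hS0] at h3
          rcases List.mem_append.1 h3 with h4 | h4
          · exact absurd rfl (hM2 _ h4)
          · rcases List.mem_cons.1 h4 with h5 | h5
            · exact absurd (Prod.mk.inj h5).2 hyb
            · exact h5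
    have m9 : ix L (e01, b) < ix L (e01, y) := ix_split hn hL2 m8
    rcases lt_or_gt_of_ne hyb with hlt | hlt
    · -- y < b
      have n1 := vbc.2.2.2.2.1 y hay.le hlt
      have n2 : ¬ ix L (y, b) < ix L (b, f2) := fun hh => by
        have := n1.1 hh
        omega
      have n3 := vab'.2.2.2.2.2 y hay hlt
      have n4 : ix L' (e01, b) < ix L' (e01, y) :=
        H.ord2 ⟨e01, Or.inl rfl, Or.inl rfl⟩ hbc' hyc.ne hayL m9
      have n5 : ix L' (y, b) < ix L' (e01, b) := by
        by_contra hh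
        have := n3.2 hh
        omega
      exact n2 (H.symm.ord1 ⟨b, Or.inr rfl, Or.inl rfl⟩ hya hab.ne' hbcL' (by omega))
    · -- b < y
      have n1 := vbc.2.2.2.2.2 y hlt hyc
      have n2 : ix L (b, y) < ix L (b, f2) := n1.2 (by omega)
      have n3 := vab.2.2.2.1 y hlt hyc.le
      have n4 := n3.1 (by omega)
      omega
  have hnob : ∀ f ∈ L, f.1 ≠ e01 → f.2 ≠ c → (f.1 = b ∨ f.2 = b) → ix L (b, c) < ix L f →
      ¬ ix L f < ix L (e01, b) := by
    intro f hfL h1 h2 h3 h4 h5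
    have m1 : ix L' (b, c) < ix L' f := H.ord1 ⟨b, Or.inl rfl, h3⟩ hab.ne' h1 hfL h4
    have m2 : ix L' f < ix L' (e01, b) := H.ord2 ⟨b, h3, Or.inr rfl⟩ h2 hbc' habL h5
    omega
  refine ⟨b, P1, M1, M2, S2, hab, hbc, by rw [hL1, hS0], hM1c, ?_, ?_, ?_, hb', by omega⟩
  · intro f hf hff
    have hfL : f ∈ L := by rw [hL1]; simp [hf]
    have m1 : ix L (b, c) < ix L f := ix_split hn hL1 (by simp [hf])
    have m2 : ix L f < ix L (e01, c) := (hp0 _).2 (by rw [hP0]; simp [hf])
    refine hnob f hfL ?_ (fun hh => hM1c f hf (Or.inr hh)) hff m1 (by omega)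
    intro hh
    have h1 : f.2 = b := by
      rcases hff with h2 | h2
      · exact absurd (hh.symm.trans h2) hab.ne
      · exact h2
    have h2 : f = (e01, b) := Prod.ext hh h1
    rw [h2] at m2
    omega
  · intro f hf hff
    have hfL : f ∈ L := by rw [hL2]; simp [hf]
    have vf := val_idx H.v hfL
    rcases hff with h1 | h1
    · exact hM2 f hf h1
    · rw [h1] at vf
      exact absurd vf.1 (not_le.2 vf.2.1)
  · intro f hf hff
    have hfL : f ∈ L := by rw [hL2]; simp [hf]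
    have m1 : ix L (e01, c) < ix L f := ix_split hn hL0 (by rw [hS0]; simp [hf])
    have m2 : ix L f < ix L (e01, b) := (hp2 _).2 (by simp [hf])
    refine hnob f hfL (hM2 f hf) ?_ hff (by omega) m2
    intro hh
    have h1 : f.1 = b := by
      rcases hff with h2 | h2
      · exact h2
      · exact absurd (h2.symm.trans hh) hbc'
    have h2 : f = (b, c) := Prod.ext h1 hh
    rw [h2] at m1
    omega

end Pool.Agent.X234.BSE
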